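import Pool.Agent.W525.CB.Stm

/-!
# Project CB, part HART: a rational function without poles in codimension one is regular
-/

set_option autoImplicit false

open AlgebraicGeometry CategoryTheory Order

namespace Pool.Agent.W715.CB

open Pool.Agent.H187R3 Pool.Agent.W525.CB

/-- The ring theoretic Hartogs lemma. -/
theorem exists_prime {R K : Type*} [CommRing R] [IsDomain R] [IsNoetherianRing R]
    [IsIntegrallyClosed R] [Field K] [Algebra R K] [IsFractionRing R K] (φ : K)
    (hφ : φ ∉ (algebraMap R K).range) :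
    ∃ P : Ideal R, P.IsPrime ∧ P.height = 1 ∧
      ∀ b, b ∉ P → algebraMap R K b * φ ∉ (algebraMap R K).range := by
  classical
  let J : R → Ideal R := fun r =>
    { carrier := {a | algebraMap R K a * (algebraMap R K r * φ) ∈ (algebraMap R K).range}
      add_mem' := by
        intro a b ha hb
        simp only [Set.mem_ofPred_eq, map_add, add_mul] at *
        exact add_mem ha hb
      zero_mem' := by simp
      smul_mem' := by
        intro c a ha
        simp only [Set.mem_ofPred_eq, smul_eq_mul, map_mul, mul_assoc] at *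
        exact mul_mem ⟨c, rfl⟩ ha }
  have hJ : ∀ r a, a ∈ J r ↔ algebraMap R K a * (algebraMap R K r * φ) ∈ (algebraMap R K).range :=
    fun r a => Iff.rfl
  have hne : ({I : Ideal R | ∃ r, algebraMap R K r * φ ∉ (algebraMap R K).range ∧ I = J r}).Nonempty :=
    ⟨J 1, 1, by rwa [map_one, one_mul], rfl⟩
  obtain ⟨P, ⟨r, hr, hPr⟩, hmax⟩ := set_has_maximal_iff_noetherian.mpr
    (inferInstanceAs (IsNoetherian R R)) _ hne
  have hPtop : P ≠ ⊤ := by
    intro h
    have h1 : (1 : R) ∈ P := by rw [h]; trivial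
    rw [hPr, hJ, map_one, one_mul] at h1
    exact hr h1
  have hprime : Ideal.IsPrime P := by
    refine ⟨hPtop, ?_⟩
    intro a b hab
    by_contra hc
    push Not at hc
    obtain ⟨ha, hb⟩ := hc
    have h1 : algebraMap R K (b * r) * φ ∉ (algebraMap R K).range := by
      intro h
      apply hb
      rw [hPr, hJ]
      rwa [map_mul, mul_assoc] at h
    have h2 : P ≤ J (b * r) := by
      intro c hc
      rw [hPr, hJ] at hc
      rw [hJ]
      have h3 : algebraMap R K c * (algebraMap R K (b * r) * φ) =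
          algebraMap R K b * (algebraMap R K c * (algebraMap R K r * φ)) := by
        rw [map_mul]; ring
      rw [h3]
      exact mul_mem ⟨b, rfl⟩ hc
    have h3 : a ∈ J (b * r) := by
      rw [hPr, hJ] at hab
      rw [hJ]
      have h4 : algebraMap R K a * (algebraMap R K (b * r) * φ) =
          algebraMap R K (a * b) * (algebraMap R K r * φ) := by
        rw [map_mul, map_mul]; ring
      rwa [h4]
    exact hmax (J (b * r)) ⟨_, h1, rfl⟩ (lt_of_le_of_ne h2 (fun h => ha (by rw [h]; exact h3)))
  have hPbot : P ≠ ⊥ := by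
    obtain ⟨s, t, ht, rfl⟩ := IsFractionRing.div_surjective (A := R) φ
    intro h
    have ht0 : t ≠ 0 := nonZeroDivisors.ne_zero ht
    have ht0' : algebraMap R K t ≠ 0 := by
      rwa [Ne, FaithfulSMul.algebraMap_eq_zero_iff]
    have h1 : t ∈ P := by
      rw [hPr, hJ]
      refine ⟨r * s, ?_⟩
      rw [map_mul]
      field_simp
    rw [h, Ideal.mem_bot] at h1
    exact ht0 h1
  have hex : ∃ π ∈ P, ∃ u, u ∉ P ∧ algebraMap R K π * (algebraMap R K r * φ) = algebraMap R K u := by
    by_contra hc
    push Not at hc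
    apply hr
    have hint : IsIntegral R (algebraMap R K r * φ) := by
      refine isIntegral_of_smul_mem_submodule (P.map (Algebra.linearMap R K)) ?_ ?_ _ ?_
      · intro h
        apply hPbot
        rw [eq_bot_iff]
        intro a ha
        have h1 : algebraMap R K a ∈ Submodule.map (Algebra.linearMap R K) P :=
          Submodule.mem_map_of_mem (f := Algebra.linearMap R K) ha
        rw [h, Submodule.mem_bot, FaithfulSMul.algebraMap_eq_zero_iff] at h1
        exact h1
      · exact Submodule.FG.map _ (IsNoetherian.noetherian P)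
      · rintro n ⟨a, ha, rfl⟩
        have h1 := ha
        rw [hPr] at h1
        obtain ⟨u, hu⟩ := (hJ r a).1 h1
        refine ⟨u, ?_, ?_⟩
        · by_contra hu'
          exact hc a ha u hu' hu.symm
        · change algebraMap R K u = (algebraMap R K r * φ) * algebraMap R K a
          rw [hu]; ring
    obtain ⟨y, hy⟩ := IsIntegrallyClosed.isIntegral_iff.mp hint
    exact ⟨y, hy⟩
  obtain ⟨π, hπ, u, hu, hπu⟩ := hex
  have hmin : P ∈ (Ideal.span {π}).minimalPrimes := by
    refine ⟨⟨hprime, (Ideal.span_singleton_le_iff_mem _).mpr hπ⟩, ?_⟩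
    rintro Q ⟨hQ, hQπ⟩ hQP a ha
    have hπQ : π ∈ Q := hQπ (Ideal.mem_span_singleton_self π)
    have h1 := ha
    rw [hPr] at h1
    obtain ⟨a', ha'⟩ := (hJ r a).1 h1
    have h2 : a * u = π * a' := by
      apply FaithfulSMul.algebraMap_injective R K
      rw [map_mul, map_mul, ← hπu, ha']
      ring
    have h3 : a * u ∈ Q := by
      rw [h2]
      exact Q.mul_mem_right _ hπQ
    rcases hQ.mem_or_mem h3 with h | h
    · exact h
    · exact absurd (hQP h) hu
  refine ⟨P, hprime, ?_, ?_⟩
  · apply le_antisymm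
    · exact Ideal.height_le_one_of_isPrincipal_of_mem_minimalPrimes _ P hmin
    · rw [Order.one_le_iff_ne_zero, Ne, Ideal.height_eq_zero_iff_eq_bot]
      exact hPbot
  · intro b hb hbφ
    apply hb
    rw [hPr, hJ]
    have h3 : algebraMap R K b * (algebraMap R K r * φ) =
        algebraMap R K r * (algebraMap R K b * φ) := by ring
    rw [h3]
    exact mul_mem ⟨r, rfl⟩ hbφ


lemma isDVR_stalk {W : Scheme.{0}} [IsIntegral W] [IsLocallyNoetherian W]
    (hW : IsNormalScheme W) (w : W) (hw : coheight w = 1) :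
    IsDiscreteValuationRing (W.presheaf.stalk w) := by
  have h1 : Ring.KrullDimLE 1 (W.presheaf.stalk w) := krullDimLE_of_coheight_le hw.le
  have h2 : IsIntegrallyClosed (W.presheaf.stalk w) := hW w
  have hnf : ¬ IsField (W.presheaf.stalk w) := by
    intro hf
    have h3 := ringKrullDim_stalk_eq_coheight w
    rw [hw, ringKrullDim_eq_zero_of_isField hf] at h3
    exact absurd h3 (by decide)
  have h5 := (IsDiscreteValuationRing.TFAE (W.presheaf.stalk w) hnf).out 3 0
  apply h5.mp
  refine ⟨h2, IsLocalRing.maximalIdeal _, ⟨?_, inferInstance⟩, ?_⟩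
  · intro h
    exact hnf (IsLocalRing.isField_iff_maximalIdeal_eq.mpr h)
  · rintro P ⟨hP, hP'⟩
    exact IsLocalRing.eq_maximalIdeal
      (Ring.krullDimLE_one_iff_of_noZeroDivisors.mp h1 P hP hP')

lemma ord_irreducible {W : Scheme.{0}} [IsIntegral W] [IsLocallyNoetherian W]
    (w : W) (hw : coheight w = 1) [IsDiscreteValuationRing (W.presheaf.stalk w)]
    {ϖ : W.presheaf.stalk w} (hϖ : Irreducible ϖ) :
    Scheme.ord (algebraMap _ W.functionField ϖ) w = 1 := by
  have hne : algebraMap (W.presheaf.stalk w) W.functionField ϖ ≠ 0 := by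
    rw [Ne, FaithfulSMul.algebraMap_eq_zero_iff]
    exact hϖ.ne_zero
  rw [Scheme.ord_eq_iff hw hne]
  have : Ring.KrullDimLE 1 (W.presheaf.stalk w) := krullDimLE_of_coheight_le hw.le
  exact Ring.ordFrac_irreducible hϖ

lemma ord_one {X : Scheme.{0}} [IsIntegral X] [IsLocallyNoetherian X] (y : X) :
    Scheme.ord (1 : X.functionField) y = 0 := by
  have h := Scheme.ord_mul (X := X) (x := y) (f := 1) (g := 1) one_ne_zero one_ne_zero
  rw [mul_one] at h
  omega

lemma ord_nonneg {W : Scheme.{0}} [IsIntegral W] [IsLocallyNoetherian W] (w : W)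
    (r : W.presheaf.stalk w) (hr : algebraMap _ W.functionField r ≠ 0) :
    0 ≤ Scheme.ord (algebraMap _ W.functionField r) w := by
  by_cases hw : coheight w = 1
  · rw [Scheme.le_ord_iff hw hr]
    have : Ring.KrullDimLE 1 (W.presheaf.stalk w) := krullDimLE_of_coheight_le hw.le
    have hr' : r ≠ 0 := by
      rintro rfl
      exact hr (map_zero _)
    exact Ring.ordFrac_ge_one_of_ne_zero hr'
  · rw [Scheme.ord_eq_zero_of_coheight_neq_one hw]

theorem mem_range_of_ord_nonneg {X : Scheme.{0}} [IsIntegral X] [IsLocallyNoetherian X]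
    (hX : IsNormalScheme X) (x : X) (hx : coheight x = 1) (φ : X.functionField) (hφ : φ ≠ 0)
    (h : 0 ≤ Scheme.ord φ x) : φ ∈ (algebraMap (X.presheaf.stalk x) X.functionField).range := by
  have hdvr := isDVR_stalk hX x hx
  rcases ValuationRing.isInteger_or_isInteger (X.presheaf.stalk x) φ with h1 | ⟨a, ha⟩
  · exact h1
  · have hane : algebraMap (X.presheaf.stalk x) X.functionField a ≠ 0 := by
      rw [ha]; exact inv_ne_zero hφ
    have ha0 : a ≠ 0 := by
      rintro rfl
      exact hane (map_zero _)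
    by_cases hu : IsUnit a
    · obtain ⟨u, rfl⟩ := hu
      refine ⟨(↑u⁻¹ : X.presheaf.stalk x), ?_⟩
      have h2 : algebraMap (X.presheaf.stalk x) X.functionField (↑u⁻¹ : X.presheaf.stalk x) *
          algebraMap (X.presheaf.stalk x) X.functionField u = 1 := by
        rw [← map_mul, Units.inv_mul, map_one]
      rw [ha] at h2
      rw [← mul_inv_eq_one₀ hφ]
      exact h2
    · exfalso
      obtain ⟨ϖ, hϖ⟩ := IsDiscreteValuationRing.exists_irreducible (X.presheaf.stalk x)
      have h2 : a ∈ IsLocalRing.maximalIdeal (X.presheaf.stalk x) :=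
        (IsLocalRing.mem_maximalIdeal a).mpr hu
      rw [(IsDiscreteValuationRing.irreducible_iff_uniformizer ϖ).1 hϖ,
        Ideal.mem_span_singleton] at h2
      obtain ⟨b, rfl⟩ := h2
      have hb0 : algebraMap (X.presheaf.stalk x) X.functionField b ≠ 0 := by
        intro h3
        rw [map_mul, h3, mul_zero] at hane
        exact hane rfl
      have hϖ0 : algebraMap (X.presheaf.stalk x) X.functionField ϖ ≠ 0 := by
        intro h3
        rw [map_mul, h3, zero_mul] at hane
        exact hane rfl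
      have h4 : Scheme.ord (φ * φ⁻¹) x = 0 := by
        rw [mul_inv_cancel₀ hφ, ord_one]
      rw [Scheme.ord_mul hφ (inv_ne_zero hφ), ← ha, map_mul, Scheme.ord_mul hϖ0 hb0,
        ord_irreducible x hx hϖ] at h4
      have h5 := ord_nonneg x b hb0
      omega

theorem main : Pool.Agent.W525.CB.S_HART := by
  intro X _ _ hX x φ hφ0 h
  by_contra hφ
  have hXx : IsIntegrallyClosed (X.presheaf.stalk x) := hX x
  obtain ⟨P, hP, hht, hb⟩ := exists_prime (R := X.presheaf.stalk x) (K := X.functionField) φ hφ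
  obtain ⟨U, hU, hxU, -⟩ := exists_isAffineOpen_mem_and_subset (X := X) (x := x) (U := ⊤) trivial
  let _ : Algebra Γ(X, U) (X.presheaf.stalk x) :=
    TopCat.Presheaf.algebra_section_stalk X.presheaf ⟨x, hxU⟩
  have hlx : IsLocalization.AtPrime (X.presheaf.stalk x) (hU.primeIdealOf ⟨x, hxU⟩).asIdeal :=
    hU.isLocalization_stalk ⟨x, hxU⟩
  have : Nonempty U := ⟨⟨x, hxU⟩⟩
  let q : Spec Γ(X, U) := ⟨P.comap (algebraMap Γ(X, U) (X.presheaf.stalk x)), Ideal.comap_isPrime _ _⟩
  let y : X := hU.fromSpec q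
  have hyU : y ∈ U := by
    have h1 : y ∈ Set.range hU.fromSpec := ⟨q, rfl⟩
    rwa [hU.range_fromSpec] at h1
  have hq : hU.primeIdealOf ⟨y, hyU⟩ = q := by
    apply hU.fromSpec.isOpenEmbedding.injective
    exact hU.fromSpec_primeIdealOf ⟨y, hyU⟩
  have hyx : y ⤳ x := by
    have h1 : q ⤳ hU.primeIdealOf ⟨x, hxU⟩ := by
      refine (PrimeSpectrum.le_iff_specializes (q : PrimeSpectrum Γ(X, U))
        (hU.primeIdealOf ⟨x, hxU⟩)).mp ?_
      intro a ha
      by_contra hc
      have h2 : IsUnit (algebraMap Γ(X, U) (X.presheaf.stalk x) a) :=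
        IsLocalization.map_units (M := (hU.primeIdealOf ⟨x, hxU⟩).asIdeal.primeCompl)
          (X.presheaf.stalk x) ⟨a, hc⟩
      exact hP.ne_top (Ideal.eq_top_of_isUnit_mem _ ha h2)
    have h2 := h1.map hU.fromSpec.continuous
    rwa [hU.fromSpec_primeIdealOf ⟨x, hxU⟩] at h2
  have hcoh : coheight y = 1 := by
    have h1 : coheight y = coheight q := coheight_eq_of_isOpenImmersion hU.fromSpec
    rw [h1, ← idealHeight_eq_coheight]
    have h2 := IsLocalization.height_under (hU.primeIdealOf ⟨x, hxU⟩).asIdeal.primeCompl P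
    rw [hht] at h2
    exact h2
  obtain ⟨c, hc⟩ := mem_range_of_ord_nonneg hX y hcoh φ hφ0 (h y hcoh hyx)
  let _ : Algebra Γ(X, U) (X.presheaf.stalk y) :=
    TopCat.Presheaf.algebra_section_stalk X.presheaf ⟨y, hyU⟩
  have hly : IsLocalization.AtPrime (X.presheaf.stalk y) (hU.primeIdealOf ⟨y, hyU⟩).asIdeal :=
    hU.isLocalization_stalk ⟨y, hyU⟩
  have htx : IsScalarTower Γ(X, U) (X.presheaf.stalk x) X.functionField :=
    functionField_isScalarTower X U ⟨x, hxU⟩
  have hty : IsScalarTower Γ(X, U) (X.presheaf.stalk y) X.functionField :=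
    functionField_isScalarTower X U ⟨y, hyU⟩
  obtain ⟨⟨s, t⟩, hst⟩ := IsLocalization.surj
    (hU.primeIdealOf ⟨y, hyU⟩).asIdeal.primeCompl c
  have h1 : φ * algebraMap Γ(X, U) X.functionField t = algebraMap Γ(X, U) X.functionField s := by
    rw [← hc, IsScalarTower.algebraMap_apply Γ(X, U) (X.presheaf.stalk y) X.functionField,
      IsScalarTower.algebraMap_apply Γ(X, U) (X.presheaf.stalk y) X.functionField, ← map_mul]
    exact congrArg _ hst
  have h2 : algebraMap Γ(X, U) (X.presheaf.stalk x) t ∈ P := by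
    by_contra hc2
    apply hb _ hc2
    rw [← IsScalarTower.algebraMap_apply Γ(X, U) (X.presheaf.stalk x) X.functionField, mul_comm, h1,
      IsScalarTower.algebraMap_apply Γ(X, U) (X.presheaf.stalk x) X.functionField]
    exact ⟨_, rfl⟩
  have h3 : (hU.primeIdealOf ⟨y, hyU⟩).asIdeal = q.asIdeal := congrArg _ hq
  have h4 : (t : Γ(X, U)) ∈ q.asIdeal := h2
  rw [← h3] at h4
  exact t.2 h4

end Pool.Agent.W715.CB
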